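import Pool.Agent.Helper82.IW.Goals

/-!
MP_f7b570_an, project IW of helper82, packet ALG: the pointwise algebraic inequality.
-/

set_option autoImplicit false

open Complex
open scoped ComplexConjugate

namespace Pool.Agent.Helper31.IW

open Pool.Agent.Helper28.BA (psi)
open Pool.Agent.Helper82.IW

/-- step (3) -/
theorem step3 {s d b δ c0 k : ℝ} (hb0 : 0 ≤ b) (hb : b ≤ 1) (hc1 : c0 ≤ 1)
    (hk : (δ ≤ 1 ∧ k = 1 - δ) ∨ (1 < δ ∧ k = 0)) :
    k ^ 2 * b ^ 2 - δ ^ 2 + 2 * (1 - c0) * (b * s - k * b ^ 2) - 2 * c0 * d + 2 * c0 * δ ≤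
      2 * (1 - c0) * b * s - 2 * c0 * d - 1 + 2 * c0 + (1 - b ^ 2) * (1 - c0) ^ 2 := by
  have hb2 : 0 ≤ 1 - b ^ 2 := by nlinarith
  rcases hk with ⟨-, rfl⟩ | ⟨h, rfl⟩
  · have h := mul_nonneg hb2 (sq_nonneg ((1 - c0) - (1 - δ)))
    nlinarith
  · have h1 := mul_nonneg hb2 (sq_nonneg (1 - c0))
    have h2 : 0 ≤ (δ - 1) * (δ + 1 - 2 * c0) := mul_nonneg (by linarith) (by linarith)
    nlinarith

/-- steps (4)-(6) -/
theorem step456 {s d b τ : ℝ} (hs : 0 ≤ s) (hd : 0 ≤ d) (hb0 : 0 ≤ b) (hb : b ≤ 1)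
    (hτ0 : 0 ≤ τ) (hτ : τ ≤ 1) :
    2 * (1 - τ * min d 1) * b * s - 2 * (τ * min d 1) * d - 1 + 2 * (τ * min d 1)
      + (1 - b ^ 2) * (1 - τ * min d 1) ^ 2 ≤ psi s d + 2 * min (1 - b) (1 - τ) := by
  have hmin : (1 - b) * (1 - τ) ≤ min (1 - b) (1 - τ) := by
    refine le_min ?_ ?_
    · nlinarith [mul_nonneg (sub_nonneg.2 hb) hτ0]
    · nlinarith [mul_nonneg (sub_nonneg.2 hτ) hb0]
  unfold psi
  by_cases h1 : s + d ≤ 1
  · rw [if_pos h1]
    have hd1 : d ≤ 1 := by linarith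
    rw [min_eq_left hd1]
    have hc0 : 0 ≤ τ * d := mul_nonneg hτ0 hd
    have hcd : τ * d ≤ d := by nlinarith
    have hc1 : 0 ≤ 1 - τ * d := by linarith
    have e : s ^ 2 - d ^ 2 - (2 * (1 - τ * d) * b * s - 2 * (τ * d) * d - 1 + 2 * (τ * d)
      + (1 - b ^ 2) * (1 - τ * d) ^ 2) = (s - (1 - τ * d) * b) ^ 2 - (d - τ * d) ^ 2 := by ring
    have k1 : -(2 * (1 - τ)) ≤ (s - (1 - τ * d) * b) ^ 2 - (d - τ * d) ^ 2 := by
      have h2 : (d - τ * d) ^ 2 ≤ 1 - τ := by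
        have h3 : d - τ * d = d * (1 - τ) := by ring
        rw [h3]
        have h4 : 0 ≤ d * (1 - τ) := mul_nonneg hd (by linarith)
        have h5 : d * (1 - τ) ≤ 1 - τ := by nlinarith
        nlinarith
      nlinarith [sq_nonneg (s - (1 - τ * d) * b)]
    have k2 : -(2 * (1 - b)) ≤ (s - (1 - τ * d) * b) ^ 2 - (d - τ * d) ^ 2 := by
      obtain ⟨y, hy⟩ : ∃ y, y = 1 - τ * d - s := ⟨_, rfl⟩
      have e2 : s - (1 - τ * d) * b = (1 - τ * d) * (1 - b) - y := by rw [hy]; ring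
      rw [e2]
      have y1 : d - τ * d ≤ y := by rw [hy]; linarith
      have y2 : y ≤ 1 := by rw [hy]; linarith
      have y0 : 0 ≤ d - τ * d := by linarith
      have y3 : (d - τ * d) ^ 2 ≤ y ^ 2 := by nlinarith
      have y4 : y * (1 - τ * d) ≤ 1 := by nlinarith
      have y5 : y * (1 - τ * d) * (1 - b) ≤ 1 * (1 - b) :=
        mul_le_mul_of_nonneg_right y4 (by linarith)
      nlinarith [sq_nonneg ((1 - τ * d) * (1 - b))]
    rcases min_choice (1 - b) (1 - τ) with h | h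
    · rw [h]; linarith
    · rw [h]; linarith
  · rw [if_neg h1]
    push Not at h1
    by_cases hd1 : d ≤ 1
    · rw [min_eq_left hd1]
      have hc0 : 0 ≤ τ * d := mul_nonneg hτ0 hd
      have hcd : τ * d ≤ d := by nlinarith
      have hc1 : 0 ≤ 1 - τ * d := by linarith
      have e : 2 * s - 1 - (2 * (1 - τ * d) * b * s - 2 * (τ * d) * d - 1 + 2 * (τ * d)
        + (1 - b ^ 2) * (1 - τ * d) ^ 2) = 2 * (s - (1 - d)) * (1 - (1 - τ * d) * b) +
          (1 - τ * d) * (1 - b) * ((1 - b) * (1 - d) - (1 + b) * (d - τ * d)) := by ring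
      have q1 : 0 ≤ 1 - (1 - τ * d) * b := by nlinarith
      have q2 : 0 ≤ 2 * (s - (1 - d)) * (1 - (1 - τ * d) * b) :=
        mul_nonneg (by linarith) q1
      have q3 : 0 ≤ (1 - τ * d) * (1 - b) := mul_nonneg hc1 (by linarith)
      have q4 : 0 ≤ (1 - b) * (1 - d) := mul_nonneg (by linarith) (by linarith)
      have q5 : (1 + b) * (d - τ * d) ≤ 2 * (1 - τ) := by
        have h3 : d - τ * d = d * (1 - τ) := by ring
        rw [h3]
        have h4 : 0 ≤ d * (1 - τ) := mul_nonneg hd (by linarith)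
        have h5 : d * (1 - τ) ≤ 1 - τ := by nlinarith
        nlinarith
      have q6 : -(2 * (1 - τ)) ≤ (1 - b) * (1 - d) - (1 + b) * (d - τ * d) := by linarith
      have q7 := mul_le_mul_of_nonneg_left q6 q3
      have q8 : (1 - τ * d) * (1 - b) * (2 * (1 - τ)) ≤ 1 * (1 - b) * (2 * (1 - τ)) := by
        apply mul_le_mul_of_nonneg_right _ (by linarith)
        apply mul_le_mul_of_nonneg_right _ (by linarith)
        linarith
      nlinarith
    · push Not at hd1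
      rw [min_eq_right hd1.le, mul_one]
      have e : 2 * s - 1 - (2 * (1 - τ) * b * s - 2 * τ * d - 1 + 2 * τ
        + (1 - b ^ 2) * (1 - τ) ^ 2) = 2 * s * (1 - (1 - τ) * b) + 2 * τ * (d - 1)
          - (1 - b ^ 2) * (1 - τ) ^ 2 := by ring
      have q1 : 0 ≤ 1 - (1 - τ) * b := by nlinarith
      have q2 : 0 ≤ 2 * s * (1 - (1 - τ) * b) := mul_nonneg (by linarith) q1
      have q3 : 0 ≤ 2 * τ * (d - 1) := mul_nonneg (by linarith) (by linarith)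
      have q4 : (1 - b ^ 2) * (1 - τ) ^ 2 ≤ 2 * ((1 - b) * (1 - τ)) := by
        have h3 : (1 - b ^ 2) * (1 - τ) ^ 2 = ((1 - b) * (1 - τ)) * ((1 + b) * (1 - τ)) := by ring
        have h4 : 0 ≤ (1 - b) * (1 - τ) := mul_nonneg (by linarith) (by linarith)
        have h5 : (1 + b) * (1 - τ) ≤ 2 := by nlinarith
        rw [h3]
        nlinarith
      linarith

theorem norm_Pj (z : ℂ) : ‖Pj z‖ = min ‖z‖ 1 := by
  unfold Pj
  by_cases h : ‖z‖ ≤ 1
  · rw [if_pos h, min_eq_left h]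
  · rw [if_neg h]
    push Not at h
    rw [min_eq_right h.le, norm_div, Complex.norm_real, Real.norm_eq_abs, abs_norm,
      div_self (by linarith)]

theorem re_Pj (z : ℂ) : (conj (Pj z) * z).re = min ‖z‖ 1 * ‖z‖ := by
  unfold Pj
  by_cases h : ‖z‖ ≤ 1
  · rw [if_pos h, min_eq_left h, ← Complex.normSq_eq_conj_mul_self, Complex.ofReal_re,
      Complex.normSq_eq_norm_sq]
    ring
  · rw [if_neg h]
    push Not at h
    rw [min_eq_right h.le, map_div₀, Complex.conj_ofReal, div_mul_eq_mul_div,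
      ← Complex.normSq_eq_conj_mul_self, Complex.normSq_eq_norm_sq, ← Complex.ofReal_div,
      Complex.ofReal_re, one_mul]
    field_simp

/-- Packet ALG. -/
theorem ALG : S_ALG := by
  intro a z0 β ζ p τ c e hβ hτ0 hτ he hc hp
  obtain ⟨k, hk⟩ : ∃ k : ℝ, k = max (1 - ‖ζ‖) 0 := ⟨_, rfl⟩
  rw [← hk]
  have hk0 : 0 ≤ k := by rw [hk]; exact le_max_right _ _
  have hk1 : k ≤ 1 := by
    rw [hk]
    exact max_le (by linarith [norm_nonneg ζ]) zero_le_one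
  have hkc : (‖ζ‖ ≤ 1 ∧ k = 1 - ‖ζ‖) ∨ (1 < ‖ζ‖ ∧ k = 0) := by
    rcases le_or_gt ‖ζ‖ 1 with h | h
    · left; exact ⟨h, by rw [hk, max_eq_left (by linarith)]⟩
    · right; exact ⟨h, by rw [hk, max_eq_right (by linarith)]⟩
  obtain ⟨c1, hc1⟩ : ∃ c1 : ℝ, c1 = min ‖z0‖ 1 := ⟨_, rfl⟩
  rw [← hc1] at hc
  have hc10 : 0 ≤ c1 := by rw [hc1]; exact le_min (norm_nonneg _) zero_le_one
  have hc11 : c1 ≤ 1 := by rw [hc1]; exact min_le_right _ _
  have hb0 := norm_nonneg β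
  have hs0 := norm_nonneg a
  have hd0 := norm_nonneg z0
  have hδ0 := norm_nonneg ζ
  -- first term
  have t1 : ‖(k : ℂ) * β‖ ^ 2 = k ^ 2 * ‖β‖ ^ 2 := by
    rw [norm_mul, Complex.norm_real, Real.norm_eq_abs, abs_of_nonneg hk0]
    ring
  -- second term
  obtain ⟨x, hx⟩ : ∃ x : ℝ, x = (conj β * a).re - k * ‖β‖ ^ 2 := ⟨_, rfl⟩
  have t2 : (conj (((1 - τ * c : ℝ) : ℂ) * β) * (a - (k : ℂ) * β)).re = (1 - τ * c) * x := by
    have e1 : conj (((1 - τ * c : ℝ) : ℂ) * β) * (a - (k : ℂ) * β)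
        = ((1 - τ * c : ℝ) : ℂ) * (conj β * a - (k : ℂ) * (conj β * β)) := by
      rw [map_mul, Complex.conj_ofReal]
      ring
    rw [e1, Complex.re_ofReal_mul, Complex.sub_re, Complex.re_ofReal_mul,
      ← Complex.normSq_eq_conj_mul_self, Complex.ofReal_re, Complex.normSq_eq_norm_sq, hx]
  have hre : |(conj β * a).re| ≤ ‖β‖ * ‖a‖ := by
    refine (Complex.abs_re_le_norm _).trans ?_
    rw [norm_mul, RCLike.norm_conj]
  have hkb : k * ‖β‖ ^ 2 ≤ 1 := by nlinarith [mul_nonneg hk0 (sq_nonneg ‖β‖)]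
  have hkb0 : 0 ≤ k * ‖β‖ ^ 2 := mul_nonneg hk0 (sq_nonneg _)
  have hba : ‖β‖ * ‖a‖ ≤ ‖a‖ := by nlinarith
  have hxle : x ≤ ‖β‖ * ‖a‖ - k * ‖β‖ ^ 2 := by
    rw [hx]
    linarith [(abs_le.1 hre).2]
  have hxabs : |x| ≤ ‖a‖ + 1 := by
    rw [abs_le, hx]
    constructor
    · linarith [(abs_le.1 hre).1]
    · linarith [(abs_le.1 hre).2]
  have t2' : (1 - τ * c) * x ≤ (1 - τ * c1) * (‖β‖ * ‖a‖ - k * ‖β‖ ^ 2) + e * (‖a‖ + 1) := by
    have h1 : (1 - τ * c) * x = (1 - τ * c1) * x + τ * ((c1 - c) * x) := by ring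
    have h2 : (c1 - c) * x ≤ e * (‖a‖ + 1) := by
      refine (le_abs_self _).trans ?_
      rw [abs_mul, abs_sub_comm]
      exact mul_le_mul hc hxabs (abs_nonneg _) he
    have h3 : 0 ≤ e * (‖a‖ + 1) := mul_nonneg he (by linarith)
    have h4 : τ * ((c1 - c) * x) ≤ e * (‖a‖ + 1) := by
      calc τ * ((c1 - c) * x) ≤ τ * (e * (‖a‖ + 1)) := mul_le_mul_of_nonneg_left h2 hτ0
        _ ≤ 1 * (e * (‖a‖ + 1)) := mul_le_mul_of_nonneg_right hτ h3
        _ = e * (‖a‖ + 1) := one_mul _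
    have h5 : 0 ≤ 1 - τ * c1 := by nlinarith
    have h6 := mul_le_mul_of_nonneg_left hxle h5
    rw [h1]
    linarith
  -- third term
  have t3 : (conj (-((τ : ℂ) * p)) * (z0 - ζ)).re ≤ -(τ * c1 * ‖z0‖) + τ * c1 * ‖ζ‖
      + e * (‖z0‖ + ‖ζ‖) := by
    have e1 : conj (-((τ : ℂ) * p)) * (z0 - ζ) = (τ : ℂ) * (-(conj (Pj z0) * z0)
        + conj (Pj z0) * ζ - conj (p - Pj z0) * (z0 - ζ)) := by
      rw [map_neg, map_mul, Complex.conj_ofReal, map_sub]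
      ring
    rw [e1, Complex.re_ofReal_mul, Complex.sub_re, Complex.add_re, Complex.neg_re, re_Pj, ← hc1]
    have h1 : (conj (Pj z0) * ζ).re ≤ c1 * ‖ζ‖ := by
      refine (le_abs_self _).trans ((Complex.abs_re_le_norm _).trans ?_)
      rw [norm_mul, RCLike.norm_conj, norm_Pj, ← hc1]
    have h2 : -(conj (p - Pj z0) * (z0 - ζ)).re ≤ e * (‖z0‖ + ‖ζ‖) := by
      refine (neg_le_abs _).trans ((Complex.abs_re_le_norm _).trans ?_)
      rw [norm_mul, RCLike.norm_conj]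
      exact mul_le_mul hp (norm_sub_le _ _) (norm_nonneg _) he
    have h3 : 0 ≤ e * (‖z0‖ + ‖ζ‖) := mul_nonneg he (by linarith)
    have h4 : -(c1 * ‖z0‖) + (conj (Pj z0) * ζ).re - (conj (p - Pj z0) * (z0 - ζ)).re
        ≤ -(c1 * ‖z0‖) + c1 * ‖ζ‖ + e * (‖z0‖ + ‖ζ‖) := by linarith
    have h5 := mul_le_mul_of_nonneg_left h4 hτ0
    have h6 : τ * (e * (‖z0‖ + ‖ζ‖)) ≤ e * (‖z0‖ + ‖ζ‖) := by nlinarith
    nlinarith
  have h3 := step3 (s := ‖a‖) (d := ‖z0‖) (b := ‖β‖) (δ := ‖ζ‖) (c0 := τ * c1) (k := k)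
    hb0 hβ (by nlinarith) hkc
  have h4 := step456 (s := ‖a‖) (d := ‖z0‖) (b := ‖β‖) (τ := τ) hs0 hd0 hb0 hβ hτ0 hτ
  rw [← hc1] at h4
  rw [t1, t2]
  nlinarith

end Pool.Agent.Helper31.IW
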